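import Pool.Agent.Run7.h426.DOM.Iface

/-! Piece RED of project DOM (MP_0828a1_co), statement by helper426, proof by helper557. -/

set_option autoImplicit false

namespace Run7.h557.DOM

open Finset Run7.h426.DOM

theorem t_RED : S_RED := by
  classical
  intro k H hk
  let P : Finset (Finset (Finset (Fin H.n))) :=
    H.edges.powerset.filter (fun C => ∀ v, ∃ e ∈ C, v ∈ e)
  have hP : P.Nonempty := ⟨H.edges, by
    simp only [P, mem_filter, mem_powerset]; exact ⟨subset_rfl, H.noIso⟩⟩
  obtain ⟨C, hC, hmin⟩ := P.exists_min_image card hP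
  have hCP : C ⊆ H.edges ∧ ∀ v, ∃ e ∈ C, v ∈ e := by
    simpa only [P, mem_filter, mem_powerset] using hC
  obtain ⟨hsub, hcov⟩ := hCP
  have hpriv : ∀ e : C, ∃ v, v ∈ e.1 ∧ ∀ e' ∈ C, v ∈ e' → e' = e.1 := by
    intro e
    by_contra hcon
    push Not at hcon
    have hmem : C.erase e.1 ∈ P := by
      simp only [P, mem_filter, mem_powerset]
      refine ⟨(erase_subset _ _).trans hsub, fun v => ?_⟩
      obtain ⟨e1, he1, hv1⟩ := hcov v
      by_cases h : e1 = e.1
      · rw [h] at hv1
        obtain ⟨e', he', hv', hne⟩ := hcon v hv1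
        exact ⟨e', mem_erase.2 ⟨hne, he'⟩, hv'⟩
      · exact ⟨e1, mem_erase.2 ⟨h, he1⟩, hv1⟩
    have h1 := hmin _ hmem
    have h2 := card_erase_lt_of_mem e.2
    omega
  choose p hp hp2 using hpriv
  let f : Fin C.card ≃ C := C.equivFin.symm
  let E : ℕ → Finset ℕ := fun i => if h : i < C.card then
    ((f ⟨i, h⟩ : Finset (Fin H.n)).erase (p (f ⟨i, h⟩))).map Fin.valEmbedding else ∅
  have hE : ∀ i (h : i < C.card), E i =
      ((f ⟨i, h⟩ : Finset (Fin H.n)).erase (p (f ⟨i, h⟩))).map Fin.valEmbedding :=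
    fun i h => dif_pos h
  refine ⟨range C.card, E, ?_, ?_, ?_, ?_⟩
  · intro i hi
    rw [hE i (mem_range.1 hi), card_map, card_erase_of_mem (hp _), H.unif _ (hsub (f _).2)]
  · rw [card_range]
    let Q : Finset ℕ := (univ : Finset C).image (fun e => (p e : ℕ))
    have hQ : Q.card = C.card := by
      rw [card_image_of_injective, card_univ, Fintype.card_coe]
      intro e e' h
      have h1 : p e = p e' := Fin.ext h
      have h2 := hp2 e' e.1 e.2 (h1 ▸ hp e)
      exact Subtype.ext h2
    have hd : Disjoint (U (range C.card) E) Q := by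
      rw [disjoint_left]
      intro a ha hq
      simp only [U, mem_biUnion] at ha
      obtain ⟨i, hi, hai⟩ := ha
      rw [hE i (mem_range.1 hi), mem_map] at hai
      obtain ⟨b, hb, rfl⟩ := hai
      obtain ⟨e, -, he⟩ := mem_image.1 hq
      have h1 : p e = b := Fin.ext he
      have h2 := mem_erase.1 hb
      have h3 := hp2 e _ (f ⟨i, mem_range.1 hi⟩).2 (h1 ▸ h2.2)
      have h4 : f ⟨i, mem_range.1 hi⟩ = e := Subtype.ext h3
      exact h2.1 (by rw [h4]; exact h1.symm)
    have hsubr : U (range C.card) E ∪ Q ⊆ range H.n := by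
      intro a ha
      rcases mem_union.1 ha with ha | ha
      · simp only [U, mem_biUnion] at ha
        obtain ⟨i, hi, hai⟩ := ha
        rw [hE i (mem_range.1 hi), mem_map] at hai
        obtain ⟨b, hb, rfl⟩ := hai
        exact mem_range.2 b.2
      · obtain ⟨e, -, he⟩ := mem_image.1 ha
        rw [← he]
        exact mem_range.2 (p e).2
    calc (U (range C.card) E).card + C.card = (U (range C.card) E ∪ Q).card := by
          rw [card_union_of_disjoint hd, hQ]
      _ ≤ (range H.n).card := card_le_card hsubr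
      _ = H.n := card_range _
  · rw [card_range]; exact card_le_card hsub
  · intro T hT
    let T' : Finset (Fin H.n) := univ.filter (fun v => (v : ℕ) ∈ T)
    have hT' : T'.card ≤ T.card := by
      rw [← card_map Fin.valEmbedding]
      refine card_le_card fun a ha => ?_
      obtain ⟨b, hb, rfl⟩ := mem_map.1 ha
      exact (mem_filter.1 hb).2
    refine le_trans (Nat.sInf_le ⟨T', ?_, rfl⟩) hT'
    intro v hv
    obtain ⟨e, he, hve⟩ := hcov v
    obtain ⟨w, hw, hwT⟩ := hT (C.equivFin ⟨e, he⟩) (mem_range.2 (C.equivFin ⟨e, he⟩).2)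
    rw [hE _ (C.equivFin ⟨e, he⟩).2, mem_map] at hw
    obtain ⟨d, hd, rfl⟩ := hw
    have h1 : f ⟨(C.equivFin ⟨e, he⟩ : ℕ), (C.equivFin ⟨e, he⟩).2⟩ = ⟨e, he⟩ := by
      simp [f]
    rw [h1] at hd
    have hd' := mem_of_mem_erase hd
    refine ⟨d, mem_filter.2 ⟨mem_univ _, hwT⟩, ?_, e, hsub he, hve, hd'⟩
    rintro rfl
    exact hv (mem_filter.2 ⟨mem_univ _, hwT⟩)

end Run7.h557.DOM
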